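import Pool.Agent.Helper59.DF.MatR
import Pool.Agent.Helper19.HO.Final
import Pool.Agent.Helper20.VF.SphereR

/-!
# The pointwise inequalities for operators on `E = ℝx ⊕ ℝv ⊕ ...`
-/

open MeasureTheory Set Metric Filter Module Matrix
open scoped NNReal Topology RealInnerProductSpace ENNReal Real Manifold ContDiff
open Pool.Agent.Helper20.VF (volDens Am av det_id_add_tan volDens_coord tanPart tanPart_apply
  exists_adapted Lw sgE det_sgE Ik Ik_even Ik_rec)

namespace Pool.Agent.Helper59.DF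

variable {n : ℕ}

lemma posDef_real {N : ℕ} (A : Matrix (Fin N) (Fin N) ℝ) : (1 + A * Aᵀ).PosDef := by
  have h : (1 + A * Aᴴ).PosDef :=
    Matrix.PosDef.one.add_posSemidef (Matrix.posSemidef_self_mul_conjTranspose A)
  rwa [conjTranspose_eq_transpose_of_trivial] at h

/-- rank one perturbation. -/
lemma det_rankOne {N : ℕ} {M : Matrix (Fin N) (Fin N) ℝ} (hM : M.PosDef) (x : Fin N → ℝ) :
    M.det ≤ (M + vecMulVec x x).det ∧ (x ≠ 0 → M.det < (M + vecMulVec x x).det) := by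
  have hu : IsUnit M.det := (Matrix.isUnit_iff_isUnit_det M).1 hM.isUnit
  have hd : 0 < M.det := hM.det_pos
  have h1 : M + vecMulVec x x = M * (1 + vecMulVec (M⁻¹ *ᵥ x) x) := by
    rw [Matrix.mul_add, Matrix.mul_one, mul_vecMulVec, Matrix.mulVec_mulVec,
      Matrix.mul_nonsing_inv M hu, Matrix.one_mulVec]
  have h2 : (M + vecMulVec x x).det = M.det * (1 + x ⬝ᵥ (M⁻¹ *ᵥ x)) := by
    rw [h1, det_mul, vecMulVec_eq Unit, det_one_add_replicateCol_mul_replicateRow]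
  rw [h2]
  constructor
  · have h3 : 0 ≤ star x ⬝ᵥ (M⁻¹ *ᵥ x) := hM.inv.posSemidef.dotProduct_mulVec_nonneg x
    rw [star_trivial] at h3
    nlinarith [mul_nonneg hd.le h3]
  · intro hx
    have h3 : 0 < star x ⬝ᵥ (M⁻¹ *ᵥ x) := hM.inv.dotProduct_mulVec_pos hx
    rw [star_trivial] at h3
    nlinarith [mul_pos hd h3]

lemma one_le_det {N : ℕ} (A : Matrix (Fin N) (Fin N) ℝ) : 1 ≤ (1 + A * Aᵀ).det := by
  refine le_trans ?_ (prod_roots_le A)
  generalize (Polynomial.map (algebraMap ℝ ℂ) A.charpoly).roots = s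
  induction s using Multiset.induction_on with
  | empty => simp
  | cons a s ih =>
    rw [Multiset.map_cons, Multiset.prod_cons]
    nlinarith [sq_nonneg ‖a‖]

variable {E : Type*} [NormedAddCommGroup E] [InnerProductSpace ℝ E] [FiniteDimensional ℝ E]

section op

variable (b : OrthonormalBasis (Fin 2 ⊕ Fin (n + 1)) ℝ E) (L : E →L[ℝ] E)

lemma volDens_eq (hLk : ∀ (k : Fin 2) δ, ⟪b (Sum.inl k), L δ⟫ = 0) (hL0 : L (b (Sum.inl 0)) = 0) :
    volDens L = √((1 + Am b L * (Am b L)ᵀ + vecMulVec (av b L) (av b L)).det) := by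
  have h := volDens_coord b L hL0 (fun δ => hLk 1 δ)
  have h2 : tanPart (b (Sum.inl 0)) L = L := by
    ext δ
    rw [tanPart_apply, hLk 0 δ, zero_smul, sub_zero]
  rwa [h2] at h

lemma sqrt_le_volDens (hLk : ∀ (k : Fin 2) δ, ⟪b (Sum.inl k), L δ⟫ = 0)
    (hL0 : L (b (Sum.inl 0)) = 0) : √((1 + Am b L * (Am b L)ᵀ).det) ≤ volDens L := by
  rw [volDens_eq b L hLk hL0]
  exact Real.sqrt_le_sqrt (det_rankOne (posDef_real (Am b L)) (av b L)).1

lemma sqrt_lt_volDens (hLk : ∀ (k : Fin 2) δ, ⟪b (Sum.inl k), L δ⟫ = 0)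
    (hL0 : L (b (Sum.inl 0)) = 0) (hne : L (b (Sum.inl 1)) ≠ 0) :
    √((1 + Am b L * (Am b L)ᵀ).det) < volDens L := by
  rw [volDens_eq b L hLk hL0]
  have h0 := one_le_det (Am b L)
  refine Real.sqrt_lt_sqrt (by linarith) ((det_rankOne (posDef_real (Am b L)) (av b L)).2 ?_)
  intro h
  apply hne
  rw [← b.sum_repr (L (b (Sum.inl 1)))]
  refine Finset.sum_eq_zero (fun i _ => ?_)
  rw [b.repr_apply_apply]
  rcases i with i | i
  · rw [hLk i, zero_smul]
  · have := congrFun h i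
    have h2 : ⟪b (Sum.inr i), L (b (Sum.inl 1))⟫ = 0 := this
    rw [h2, zero_smul]

lemma det_add_eq (hLk : ∀ (k : Fin 2) δ, ⟪b (Sum.inl k), L δ⟫ = 0) :
    (1 + L).det = (1 + Am b L).det := by
  have := det_id_add_tan b L hLk 1
  rwa [one_smul, one_smul] at this

lemma det_sub_eq (hLk : ∀ (k : Fin 2) δ, ⟪b (Sum.inl k), L δ⟫ = 0) :
    (1 - L).det = (1 - Am b L).det := by
  have := det_id_add_tan b L hLk (-1)
  rwa [neg_one_smul, neg_one_smul, ← sub_eq_add_neg, ← sub_eq_add_neg] at this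

lemma trace_eq (hLk : ∀ (k : Fin 2) δ, ⟪b (Sum.inl k), L δ⟫ = 0) :
    LinearMap.trace ℝ E (L : E →ₗ[ℝ] E) = (Am b L).trace := by
  rw [LinearMap.trace_eq_matrix_trace ℝ b.toBasis, Matrix.trace, Fintype.sum_sum_type,
    Matrix.trace]
  have h1 : ∀ i, (LinearMap.toMatrix b.toBasis b.toBasis (L : E →ₗ[ℝ] E)).diag i
      = ⟪b i, L (b i)⟫ := by
    intro i
    rw [Matrix.diag_apply, LinearMap.toMatrix_apply, OrthonormalBasis.coe_toBasis_repr_apply,
      OrthonormalBasis.repr_apply_apply, OrthonormalBasis.coe_toBasis]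
    rfl
  simp only [h1, hLk, Finset.sum_const_zero, zero_add]
  rfl

/-- the odd part of `det (1 + tL)` at `t = 1`. -/
noncomputable def oddPart (L : E →L[ℝ] E) : ℝ := ((1 + L).det - (1 - L).det) / 2

/-- the even part of `det (1 + tL)` at `t = 1`. -/
noncomputable def evenPart (L : E →L[ℝ] E) : ℝ := ((1 + L).det + (1 - L).det) / 2

lemma even_le_aux (hLk : ∀ (k : Fin 2) δ, ⟪b (Sum.inl k), L δ⟫ = 0) :
    evenPart L ≤ √((1 + Am b L * (Am b L)ᵀ).det ^ 1 + oddPart L ^ 2) := by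
  have h1 := abs_det_mul_le (Am b L)
  rw [← det_add_eq b L hLk, ← det_sub_eq b L hLk] at h1
  refine Real.le_sqrt_of_sq_le ?_
  have h2 := (le_abs_self _).trans h1
  rw [pow_one, evenPart, oddPart]
  nlinarith

/-- `volDens` squared. -/
lemma volDens_sq (hLk : ∀ (k : Fin 2) δ, ⟪b (Sum.inl k), L δ⟫ = 0)
    (hL0 : L (b (Sum.inl 0)) = 0) :
    (1 + Am b L * (Am b L)ᵀ).det ≤ volDens L ^ 2 ∧
      (L (b (Sum.inl 1)) ≠ 0 → (1 + Am b L * (Am b L)ᵀ).det < volDens L ^ 2) := by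
  have h0 := one_le_det (Am b L)
  have h1 := sqrt_le_volDens b L hLk hL0
  have h2 : √((1 + Am b L * (Am b L)ᵀ).det) ^ 2 = (1 + Am b L * (Am b L)ᵀ).det :=
    Real.sq_sqrt (by linarith)
  have h3 := Real.sqrt_nonneg ((1 + Am b L * (Am b L)ᵀ).det)
  refine ⟨by rw [← h2]; exact pow_le_pow_left₀ h3 h1 2, fun hne => ?_⟩
  rw [← h2]
  exact pow_lt_pow_left₀ (sqrt_lt_volDens b L hLk hL0 hne) h3 two_ne_zero

/-- the pointwise inequality in all dimensions. -/
lemma point_all (hLk : ∀ (k : Fin 2) δ, ⟪b (Sum.inl k), L δ⟫ = 0)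
    (hL0 : L (b (Sum.inl 0)) = 0) :
    evenPart L ≤ √(volDens L ^ 2 + oddPart L ^ 2) ∧
      (L (b (Sum.inl 1)) ≠ 0 → evenPart L < √(volDens L ^ 2 + oddPart L ^ 2)) := by
  have h1 := even_le_aux b L hLk
  rw [pow_one] at h1
  have h0 := one_le_det (Am b L)
  have h2 := volDens_sq b L hLk hL0
  have h3 := sq_nonneg (oddPart L)
  refine ⟨h1.trans (Real.sqrt_le_sqrt (by linarith [h2.1])), fun hne => h1.trans_lt ?_⟩
  exact Real.sqrt_lt_sqrt (by linarith) (by linarith [h2.2 hne])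

end op

/-- the pointwise inequality in dimension five. -/
lemma point_five (b : OrthonormalBasis (Fin 2 ⊕ Fin (3 + 1)) ℝ E) (L : E →L[ℝ] E)
    (hLk : ∀ (k : Fin 2) δ, ⟪b (Sum.inl k), L δ⟫ = 0) (hL0 : L (b (Sum.inl 0)) = 0) :
    evenPart L ≤ volDens L + 1 / 4 * LinearMap.trace ℝ E (L : E →ₗ[ℝ] E) ^ 2 ∧
      (L (b (Sum.inl 1)) ≠ 0 →
        evenPart L < volDens L + 1 / 4 * LinearMap.trace ℝ E (L : E →ₗ[ℝ] E) ^ 2) := by
  have h1 := four_ineq (Am b L)
  rw [← det_add_eq b L hLk, ← det_sub_eq b L hLk, ← trace_eq b L hLk] at h1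
  have h2 := sqrt_le_volDens b L hLk hL0
  refine ⟨by rw [evenPart]; linarith, fun hne => ?_⟩
  have h3 := sqrt_lt_volDens b L hLk hL0 hne
  rw [evenPart]; linarith

end Pool.Agent.Helper59.DF
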