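import Pool.Agent.Helper59.DF.Main

/-!
# Hopf fields among the fields of constant length: divergence and odd part
-/

open MeasureTheory Set Metric Filter Module Matrix
open scoped NNReal Topology RealInnerProductSpace ENNReal Real Manifold ContDiff
open Pool.Agent.Helper20.VF (volDens continuous_volDens)
open Pool.Agent.Helper19.HO (covDeriv dens)

namespace Pool.Agent.Helper59.DF

variable {E : Type*} [NormedAddCommGroup E] [InnerProductSpace ℝ E] [FiniteDimensional ℝ E]
variable [MeasurableSpace E] [BorelSpace E]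
variable {m : ℕ} [Fact (finrank ℝ E = 2 * m + 1 + 1)] {W : sphere (0 : E) 1 → E}

lemma volDens_sq_eq (hm : 1 ≤ m) (hW : ContMDiff (𝓡 (2 * m + 1)) 𝓘(ℝ, E) 1 W)
    (ht : ∀ x : sphere (0 : E) 1, ⟪(x : E), W x⟫ = 0) {r : ℝ} (hr : 0 < r) (hn : ∀ x, ‖W x‖ = r)
    (x : sphere (0 : E) 1) :
    volDens (covDeriv W x) ^ 2 = (1 + (covDeriv W x).adjoint ∘L covDeriv W x).det := by
  have hfr : finrank ℝ E = (2 * m - 1) + 3 := by
    have : finrank ℝ E = 2 * m + 1 + 1 := Fact.out
    omega
  obtain ⟨b, hb1, hLk, hL0⟩ := adapted hfr hW ht hr hn x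
  have h1 := sqrt_le_volDens b (covDeriv W x) hLk hL0
  have h2 := one_le_det (Pool.Agent.Helper20.VF.Am b (covDeriv W x))
  have h3 := Real.one_le_sqrt.2 h2
  have h4 : 1 ≤ volDens (covDeriv W x) := h3.trans h1
  rw [volDens]
  refine Real.sq_sqrt ?_
  by_contra hcon
  rw [not_le] at hcon
  rw [volDens, Real.sqrt_eq_zero_of_nonpos hcon.le] at h4
  linarith

lemma fact1 (hm : 1 ≤ m) (hW : ContMDiff (𝓡 (2 * m + 1)) 𝓘(ℝ, E) 1 W)
    (ht : ∀ x : sphere (0 : E) 1, ⟪(x : E), W x⟫ = 0) {r : ℝ} (hr : 0 < r) (hn : ∀ x, ‖W x‖ = r) :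
    (1 + r ^ 2) ^ m * (volume : Measure E).toSphere.real univ
        ≤ ∫ x : sphere (0 : E) 1, √(volDens (covDeriv W x) ^ 2 + oddPart (covDeriv W x) ^ 2)
          ∂(volume : Measure E).toSphere ∧
      (∫ x : sphere (0 : E) 1, √(volDens (covDeriv W x) ^ 2 + oddPart (covDeriv W x) ^ 2)
          ∂(volume : Measure E).toSphere
        = (1 + r ^ 2) ^ m * (volume : Measure E).toSphere.real univ → IsHopf r W) := by
  have hfr : finrank ℝ E = (2 * m - 1) + 3 := by
    have : finrank ℝ E = 2 * m + 1 + 1 := Fact.out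
    omega
  refine principle (F := fun L => √(volDens L ^ 2 + oddPart L ^ 2)) hm hW ht hr hn
    (((continuous_volDens.pow 2).add (continuous_oddPart.pow 2)).sqrt) (fun x => ?_) (fun x => ?_)
    (fun x hx => ?_)
  · refine Real.le_sqrt_of_sq_le ?_
    have := sq_nonneg (oddPart (covDeriv W x))
    linarith
  · obtain ⟨b, hb1, hLk, hL0⟩ := adapted hfr hW ht hr hn x
    exact (point_all b (covDeriv W x) hLk hL0).1
  · obtain ⟨b, hb1, hLk, hL0⟩ := adapted hfr hW ht hr hn x
    exact (point_all b (covDeriv W x) hLk hL0).2 (geo_iff hr hb1 hx)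

lemma fact2 (hm : m = 2) (hW : ContMDiff (𝓡 (2 * m + 1)) 𝓘(ℝ, E) 1 W)
    (ht : ∀ x : sphere (0 : E) 1, ⟪(x : E), W x⟫ = 0) {r : ℝ} (hr : 0 < r) (hn : ∀ x, ‖W x‖ = r) :
    (1 + r ^ 2) ^ m * (volume : Measure E).toSphere.real univ
        ≤ ∫ x : sphere (0 : E) 1, (volDens (covDeriv W x)
            + 1 / 4 * LinearMap.trace ℝ E (covDeriv W x : E →ₗ[ℝ] E) ^ 2)
          ∂(volume : Measure E).toSphere ∧
      (∫ x : sphere (0 : E) 1, (volDens (covDeriv W x)
            + 1 / 4 * LinearMap.trace ℝ E (covDeriv W x : E →ₗ[ℝ] E) ^ 2)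
          ∂(volume : Measure E).toSphere
        = (1 + r ^ 2) ^ m * (volume : Measure E).toSphere.real univ → IsHopf r W) := by
  have hfr : finrank ℝ E = 3 + 3 := by
    have : finrank ℝ E = 2 * m + 1 + 1 := Fact.out
    omega
  refine principle (F := fun L => volDens L + 1 / 4 * LinearMap.trace ℝ E (L : E →ₗ[ℝ] E) ^ 2)
    (by omega) hW ht hr hn (continuous_volDens.add ((continuous_trace.pow 2).const_mul _))
    (fun x => ?_) (fun x => ?_) (fun x hx => ?_)
  · have := sq_nonneg (LinearMap.trace ℝ E (covDeriv W x : E →ₗ[ℝ] E))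
    linarith
  · obtain ⟨b, hb1, hLk, hL0⟩ := adapted hfr hW ht hr hn x
    exact (point_five b (covDeriv W x) hLk hL0).1
  · obtain ⟨b, hb1, hLk, hL0⟩ := adapted hfr hW ht hr hn x
    exact (point_five b (covDeriv W x) hLk hL0).2 (geo_iff hr hb1 hx)

/-- facts on Hopf fields. -/
lemma hopf_all (hm : 1 ≤ m) {r : ℝ} (hr : 0 < r) (hH : IsHopf r W) :
    (∀ x, oddPart (covDeriv W x) = 0) ∧
      (∀ x, LinearMap.trace ℝ E (covDeriv W x : E →ₗ[ℝ] E) = 0) ∧
      ∫ x, dens W x ∂(volume : Measure E).toSphere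
        = (1 + r ^ 2) ^ m * (volume : Measure E).toSphere.real univ := by
  have hfr : finrank ℝ E = 2 * m + 2 := Fact.out (p := finrank ℝ E = 2 * m + 1 + 1)
  obtain ⟨J, hJ, hJJ, hWJ⟩ := hH
  have h1 : W = fun y : sphere (0 : E) 1 => r • J y := funext hWJ
  rw [h1]
  exact ⟨fun x => (hopf_zero hm hJ hJJ hr x).1, fun x => (hopf_zero hm hJ hJJ hr x).2,
    Pool.Agent.Helper19.HO.volume_hopf m hfr hJ hJJ hr⟩

/-- The main theorem. -/
theorem final (m : ℕ) (hm : 1 ≤ m) {r : ℝ} (hr : 0 < r) {E : Type*} [NormedAddCommGroup E]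
    [InnerProductSpace ℝ E] [FiniteDimensional ℝ E] [MeasurableSpace E] [BorelSpace E]
    [Fact (finrank ℝ E = 2 * m + 1 + 1)] :
    (∀ W : sphere (0 : E) 1 → E, ContMDiff (𝓡 (2 * m + 1)) 𝓘(ℝ, E) 1 W →
      (∀ x : sphere (0 : E) 1, ⟪(x : E), W x⟫ = 0) → (∀ x, ‖W x‖ = r) →
      ((1 + r ^ 2) ^ m * (volume : Measure E).toSphere.real univ
          ≤ ∫ x : sphere (0 : E) 1, √((1 + (covDeriv W x).adjoint ∘L covDeriv W x).det
            + oddPart (covDeriv W x) ^ 2) ∂(volume : Measure E).toSphere ∧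
        (∫ x : sphere (0 : E) 1, √((1 + (covDeriv W x).adjoint ∘L covDeriv W x).det
            + oddPart (covDeriv W x) ^ 2) ∂(volume : Measure E).toSphere
          = (1 + r ^ 2) ^ m * (volume : Measure E).toSphere.real univ ↔ IsHopf r W)) ∧
      ((∀ x, (1 + covDeriv W x).det = (1 - covDeriv W x).det) →
        (1 + r ^ 2) ^ m * (volume : Measure E).toSphere.real univ
          ≤ ∫ x, dens W x ∂(volume : Measure E).toSphere ∧
        (∫ x, dens W x ∂(volume : Measure E).toSphere
          = (1 + r ^ 2) ^ m * (volume : Measure E).toSphere.real univ ↔ IsHopf r W)) ∧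
      (m = 2 →
        (1 + r ^ 2) ^ m * (volume : Measure E).toSphere.real univ
          ≤ ∫ x, dens W x ∂(volume : Measure E).toSphere
            + 1 / 4 * ∫ x, LinearMap.trace ℝ E (covDeriv W x : E →ₗ[ℝ] E) ^ 2
              ∂(volume : Measure E).toSphere ∧
        (∫ x, dens W x ∂(volume : Measure E).toSphere
            + 1 / 4 * ∫ x, LinearMap.trace ℝ E (covDeriv W x : E →ₗ[ℝ] E) ^ 2
              ∂(volume : Measure E).toSphere
          = (1 + r ^ 2) ^ m * (volume : Measure E).toSphere.real univ ↔ IsHopf r W)) ∧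
      (m = 2 → (∀ x, LinearMap.trace ℝ E (covDeriv W x : E →ₗ[ℝ] E) = 0) →
        (1 + r ^ 2) ^ m * (volume : Measure E).toSphere.real univ
          ≤ ∫ x, dens W x ∂(volume : Measure E).toSphere ∧
        (∫ x, dens W x ∂(volume : Measure E).toSphere
          = (1 + r ^ 2) ^ m * (volume : Measure E).toSphere.real univ ↔ IsHopf r W))) ∧
    ∃ W : sphere (0 : E) 1 → E, ContMDiff (𝓡 (2 * m + 1)) 𝓘(ℝ, E) ∞ W ∧
      (∀ x : sphere (0 : E) 1, ⟪(x : E), W x⟫ = 0) ∧ (∀ x, ‖W x‖ = r) ∧
      (∀ x, (1 + covDeriv W x).det = (1 - covDeriv W x).det) ∧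
      (∀ x, LinearMap.trace ℝ E (covDeriv W x : E →ₗ[ℝ] E) = 0) ∧
      ∫ x, dens W x ∂(volume : Measure E).toSphere
        = (1 + r ^ 2) ^ m * (volume : Measure E).toSphere.real univ := by
  refine ⟨fun W hW ht hn => ?_, ?_⟩
  · have hd0 : ∀ x, 0 ≤ dens W x := fun x => Real.sqrt_nonneg _
    have hdv : ∀ x, volDens (covDeriv W x) = dens W x := fun x => rfl
    have f1 := fact1 hm hW ht hr hn
    have hsq := volDens_sq_eq hm hW ht hr hn
    have p1 : (1 + r ^ 2) ^ m * (volume : Measure E).toSphere.real univ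
          ≤ ∫ x : sphere (0 : E) 1, √((1 + (covDeriv W x).adjoint ∘L covDeriv W x).det
            + oddPart (covDeriv W x) ^ 2) ∂(volume : Measure E).toSphere ∧
        (∫ x : sphere (0 : E) 1, √((1 + (covDeriv W x).adjoint ∘L covDeriv W x).det
            + oddPart (covDeriv W x) ^ 2) ∂(volume : Measure E).toSphere
          = (1 + r ^ 2) ^ m * (volume : Measure E).toSphere.real univ ↔ IsHopf r W) := by
      simp_rw [← hsq]
      refine ⟨f1.1, f1.2, fun hH => ?_⟩
      obtain ⟨h1, h2, h3⟩ := hopf_all hm hr hH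
      rw [← h3]
      refine integral_congr_ae (Eventually.of_forall fun x => ?_)
      simp only [h1, hdv]
      rw [zero_pow two_ne_zero, add_zero, Real.sqrt_sq (hd0 x)]
    refine ⟨p1, fun hodd => ?_, fun h2 => ?_, fun h2 hdiv => ?_⟩
    · have hz : ∀ x, oddPart (covDeriv W x) = 0 := fun x => by
        rw [oddPart, hodd x, sub_self, zero_div]
      have he : ∫ x : sphere (0 : E) 1, √((1 + (covDeriv W x).adjoint ∘L covDeriv W x).det
            + oddPart (covDeriv W x) ^ 2) ∂(volume : Measure E).toSphere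
          = ∫ x, dens W x ∂(volume : Measure E).toSphere := by
        refine integral_congr_ae (Eventually.of_forall fun x => ?_)
        simp only [hz]
        rw [zero_pow two_ne_zero, add_zero]
        rfl
      rw [he] at p1
      exact p1
    · have f2 := fact2 h2 hW ht hr hn
      have i1 : Integrable (fun x => dens W x) (volume : Measure E).toSphere :=
        integrable_of (continuous_volDens (E := E)) hW
      have i2 : Integrable (fun x : sphere (0 : E) 1 => 1 / 4 *
          LinearMap.trace ℝ E (covDeriv W x : E →ₗ[ℝ] E) ^ 2) (volume : Measure E).toSphere :=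
        (integrable_of (f := fun L => LinearMap.trace ℝ E (L : E →ₗ[ℝ] E) ^ 2)
          ((continuous_trace (E := E)).pow 2) hW).const_mul _
      have he : ∫ x : sphere (0 : E) 1, (volDens (covDeriv W x)
            + 1 / 4 * LinearMap.trace ℝ E (covDeriv W x : E →ₗ[ℝ] E) ^ 2)
          ∂(volume : Measure E).toSphere
          = ∫ x, dens W x ∂(volume : Measure E).toSphere
            + 1 / 4 * ∫ x, LinearMap.trace ℝ E (covDeriv W x : E →ₗ[ℝ] E) ^ 2
              ∂(volume : Measure E).toSphere := by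
        rw [← integral_const_mul, ← integral_add i1 i2]
        rfl
      rw [he] at f2
      refine ⟨f2.1, f2.2, fun hH => ?_⟩
      obtain ⟨h1, h2, h3⟩ := hopf_all hm hr hH
      rw [h3]
      simp [h2]
    · have f2 := fact2 h2 hW ht hr hn
      have he : ∫ x : sphere (0 : E) 1, (volDens (covDeriv W x)
            + 1 / 4 * LinearMap.trace ℝ E (covDeriv W x : E →ₗ[ℝ] E) ^ 2)
          ∂(volume : Measure E).toSphere
          = ∫ x, dens W x ∂(volume : Measure E).toSphere := by
        refine integral_congr_ae (Eventually.of_forall fun x => ?_)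
        simp only [hdiv, hdv]
        ring
      rw [he] at f2
      exact ⟨f2.1, f2.2, fun hH => (hopf_all hm hr hH).2.2⟩
  · have hfr : finrank ℝ E = 2 * m + 2 := Fact.out (p := finrank ℝ E = 2 * m + 1 + 1)
    obtain ⟨J, hJc⟩ := Pool.Agent.Helper19.PU.exists_CS (E := E) (m + 1) (by omega)
    have hJ := hJc.inner_map
    have hJJ := hJc.sq
    have hf := Pool.Agent.Helper19.HO.hopf_facts hJ hJJ r hr
    have hH : IsHopf r (fun y : sphere (0 : E) 1 => r • J y) := ⟨J, hJ, hJJ, fun _ => rfl⟩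
    obtain ⟨h1, h2, h3⟩ := hopf_all hm hr hH
    refine ⟨fun y : sphere (0 : E) 1 => r • J y, Pool.Agent.Helper19.HO.contMDiff_hopf J r, hf.1,
      hf.2.1, fun x => ?_, h2, h3⟩
    have := h1 x
    rw [oddPart] at this
    linarith

end Pool.Agent.Helper59.DF
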