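import Pool.Agent.Helper59.DF.Field

/-!
# The integral inequalities for fields of constant length
-/

open MeasureTheory Set Metric Filter Module Matrix
open scoped NNReal Topology RealInnerProductSpace ENNReal Real Manifold ContDiff
open Pool.Agent.Helper20.VF (volDens Am av det_id_add_tan volDens_coord tanPart tanPart_apply
  exists_adapted Lw sgE det_sgE Ik Ik_even Ik_rec continuous_volDens)
open Pool.Agent.Helper19.HO (covDeriv dens)

namespace Pool.Agent.Helper59.DF

variable {E : Type*} [NormedAddCommGroup E] [InnerProductSpace ℝ E] [FiniteDimensional ℝ E]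

/-- Hopf fields of length `r`. -/
def IsHopf (r : ℝ) (W : sphere (0 : E) 1 → E) : Prop :=
  ∃ J : E →L[ℝ] E, (∀ x y, ⟪J x, J y⟫ = ⟪x, y⟫) ∧ (∀ x, J (J x) = -x) ∧
    ∀ x : sphere (0 : E) 1, W x = r • J x

lemma continuous_oddPart : Continuous (oddPart : (E →L[ℝ] E) → ℝ) := by
  unfold oddPart
  have h1 : Continuous (fun L : E →L[ℝ] E => (1 + L).det) :=
    ContinuousLinearMap.continuous_det.comp (by fun_prop)
  have h2 : Continuous (fun L : E →L[ℝ] E => (1 - L).det) :=
    ContinuousLinearMap.continuous_det.comp (by fun_prop)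
  exact (h1.sub h2).div_const 2

lemma continuous_evenPart : Continuous (evenPart : (E →L[ℝ] E) → ℝ) := by
  unfold evenPart
  have h1 : Continuous (fun L : E →L[ℝ] E => (1 + L).det) :=
    ContinuousLinearMap.continuous_det.comp (by fun_prop)
  have h2 : Continuous (fun L : E →L[ℝ] E => (1 - L).det) :=
    ContinuousLinearMap.continuous_det.comp (by fun_prop)
  exact (h1.add h2).div_const 2

lemma continuous_trace :
    Continuous (fun L : E →L[ℝ] E => LinearMap.trace ℝ E (L : E →ₗ[ℝ] E)) := by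
  have h : (fun L : E →L[ℝ] E => LinearMap.trace ℝ E (L : E →ₗ[ℝ] E))
      = fun L => ∑ i, ⟪stdOrthonormalBasis ℝ E i, L (stdOrthonormalBasis ℝ E i)⟫ := by
    funext L
    rw [LinearMap.trace_eq_sum_inner (L : E →ₗ[ℝ] E) (stdOrthonormalBasis ℝ E)]
    rfl
  rw [h]
  fun_prop

section adapted

variable {k : ℕ} [Fact (finrank ℝ E = k + 1)] {W : sphere (0 : E) 1 → E} {n : ℕ}

lemma adapted (hfr : finrank ℝ E = n + 3) (hW : ContMDiff (𝓡 k) 𝓘(ℝ, E) 1 W)
    (ht : ∀ x : sphere (0 : E) 1, ⟪(x : E), W x⟫ = 0) {r : ℝ} (hr : 0 < r) (hn : ∀ x, ‖W x‖ = r)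
    (x : sphere (0 : E) 1) : ∃ b : OrthonormalBasis (Fin 2 ⊕ Fin (n + 1)) ℝ E,
      b (Sum.inl 1) = r⁻¹ • W x ∧ (∀ (k : Fin 2) δ, ⟪b (Sum.inl k), covDeriv W x δ⟫ = 0) ∧
        covDeriv W x (b (Sum.inl 0)) = 0 := by
  have hx : ‖(x : E)‖ = 1 := mem_sphere_zero_iff_norm.1 x.2
  have hv : ‖r⁻¹ • W x‖ = 1 := by
    rw [norm_smul, hn, norm_inv, Real.norm_eq_abs, abs_of_pos hr, inv_mul_cancel₀ hr.ne']
  obtain ⟨b, hb0, hb1⟩ := exists_adapted hfr hx hv (by rw [inner_smul_right, ht, mul_zero])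
  refine ⟨b, hb1, fun k δ => ?_, by rw [hb0]; exact Pool.Agent.Helper19.HO.covDeriv_self hW x⟩
  fin_cases k
  · simp only [Fin.zero_eta, hb0]
    exact Pool.Agent.Helper19.HO.inner_covDeriv W x δ
  · simp only [Fin.mk_one, hb1, inner_smul_left]
    rw [Pool.Agent.Helper19.HO.inner_field_covDeriv hW ht hn x δ, mul_zero]

lemma geo_iff {r : ℝ} (hr : 0 < r) {b : OrthonormalBasis (Fin 2 ⊕ Fin (n + 1)) ℝ E}
    {x : sphere (0 : E) 1} (hb1 : b (Sum.inl 1) = r⁻¹ • W x)
    (h : covDeriv W x (W x) ≠ 0) : covDeriv W x (b (Sum.inl 1)) ≠ 0 := by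
  rw [hb1, map_smul]
  exact smul_ne_zero (inv_ne_zero hr.ne') h

end adapted

variable [MeasurableSpace E] [BorelSpace E]

section hopf

variable {m : ℕ}

lemma hopf_skew {J : E →L[ℝ] E} [Fact (finrank ℝ E = 2 * m + 1 + 1)]
    (hJ : ∀ x y, ⟪J x, J y⟫ = ⟪x, y⟫) (hJJ : ∀ x, J (J x) = -x) {r : ℝ} (hr : 0 < r)
    (x : sphere (0 : E) 1) (δ ε : E) :
    ⟪ε, covDeriv (fun y : sphere (0 : E) 1 => r • J y) x δ⟫
      = -⟪δ, covDeriv (fun y : sphere (0 : E) 1 => r • J y) x ε⟫ := by
  have hf := Pool.Agent.Helper19.HO.hopf_facts hJ hJJ r hr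
  have hs := (Pool.Agent.Helper19.HO.contMDiff_hopf (m := m) J r).of_le
    (WithTop.coe_le_coe.2 (le_top : (1 : ℕ∞) ≤ ⊤))
  have h1 := Pool.Agent.Helper19.HO.fderiv_hext_apply hs hf.1 x δ
  have h1' := Pool.Agent.Helper19.HO.fderiv_hext_apply hs hf.1 x ε
  have h2 : Pool.Agent.Helper19.HO.hext (fun y : sphere (0 : E) 1 => r • J y)
      = fun y => r • J y := by
    funext y
    by_cases hy : y = 0
    · subst hy; simp [Pool.Agent.Helper19.HO.hext]
    · rw [Pool.Agent.Helper19.HO.hext, Pool.Agent.Helper19.HO.radExt, dif_neg hy]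
      simp only [map_smul, smul_smul]
      congr 1
      have := norm_ne_zero_iff.2 hy
      field_simp
  have h3 : fderiv ℝ (fun y : E => r • J y) x = r • J := (r • J).hasFDerivAt.fderiv
  rw [h2, h3] at h1 h1'
  have e1 : covDeriv (fun y : sphere (0 : E) 1 => r • J y) x δ
      = (r • J) δ - ⟪(x : E), δ⟫ • (r • J x) + ⟪r • J x, δ⟫ • (x : E) := by
    rw [h1]; abel
  have e2 : covDeriv (fun y : sphere (0 : E) 1 => r • J y) x ε
      = (r • J) ε - ⟪(x : E), ε⟫ • (r • J x) + ⟪r • J x, ε⟫ • (x : E) := by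
    rw [h1']; abel
  have hskew : ⟪ε, J δ⟫ = -⟪δ, J ε⟫ := by
    calc ⟪ε, J δ⟫ = ⟪J ε, J (J δ)⟫ := (hJ _ _).symm
      _ = -⟪δ, J ε⟫ := by rw [hJJ, inner_neg_right, real_inner_comm]
  rw [e1, e2]
  simp only [inner_add_right, inner_sub_right, inner_smul_right, inner_smul_left,
    ContinuousLinearMap.smul_apply, RCLike.conj_to_real]
  rw [hskew, real_inner_comm (x : E) ε, real_inner_comm (x : E) δ, real_inner_comm (J x) ε,
    real_inner_comm (J x) δ]
  ring

lemma hopf_zero {J : E →L[ℝ] E} [Fact (finrank ℝ E = 2 * m + 1 + 1)] (hm : 1 ≤ m)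
    (hJ : ∀ x y, ⟪J x, J y⟫ = ⟪x, y⟫) (hJJ : ∀ x, J (J x) = -x) {r : ℝ} (hr : 0 < r)
    (x : sphere (0 : E) 1) :
    oddPart (covDeriv (fun y : sphere (0 : E) 1 => r • J y) x) = 0 ∧
      LinearMap.trace ℝ E (covDeriv (fun y : sphere (0 : E) 1 => r • J y) x : E →ₗ[ℝ] E) = 0 := by
  have hfr : finrank ℝ E = (2 * m - 1) + 3 := by
    have : finrank ℝ E = 2 * m + 1 + 1 := Fact.out
    omega
  have hf := Pool.Agent.Helper19.HO.hopf_facts hJ hJJ r hr
  have hs := (Pool.Agent.Helper19.HO.contMDiff_hopf (m := m) J r).of_le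
    (WithTop.coe_le_coe.2 (le_top : (1 : ℕ∞) ≤ ⊤))
  obtain ⟨b, hb1, hLk, hL0⟩ := adapted hfr hs hf.1 hr hf.2.1 x
  set L := covDeriv (fun y : sphere (0 : E) 1 => r • J y) x with hL
  have hsk : (Am b L)ᵀ = -Am b L := by
    ext i j
    rw [transpose_apply, Matrix.neg_apply]
    exact hopf_skew (m := m) hJ hJJ hr x _ _
  constructor
  · rw [oddPart, det_add_eq b L hLk, det_sub_eq b L hLk]
    have : (1 + Am b L).det = (1 - Am b L).det := by
      rw [← det_transpose, transpose_add, transpose_one, hsk, ← sub_eq_add_neg]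
    rw [this, sub_self, zero_div]
  · rw [trace_eq b L hLk]
    have : (Am b L).trace = -(Am b L).trace := by
      rw [← trace_neg, ← hsk, trace_transpose]
    linarith

end hopf

lemma sum_even (f : ℕ → ℝ) (h : ∀ j, f (2 * j + 1) = 0) (N : ℕ) :
    ∑ k ∈ Finset.range (2 * N + 1), f k = ∑ j ∈ Finset.range (N + 1), f (2 * j) := by
  induction N with
  | zero => simp
  | succ N ih =>
    rw [show 2 * (N + 1) + 1 = 2 * N + 1 + 1 + 1 by ring, Finset.sum_range_succ,
      Finset.sum_range_succ, ih, h, add_zero, Finset.sum_range_succ _ (N + 1)]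
    rfl

section field

variable {m : ℕ} [Fact (finrank ℝ E = 2 * m + 1 + 1)] {W : sphere (0 : E) 1 → E}

lemma integrable_of {f : (E →L[ℝ] E) → ℝ} (hf : Continuous f)
    (hW : ContMDiff (𝓡 (2 * m + 1)) 𝓘(ℝ, E) 1 W) :
    Integrable (fun x : sphere (0 : E) 1 => f (covDeriv W x)) (volume : Measure E).toSphere :=
  (hf.comp (Pool.Agent.Helper19.HO.continuous_covDeriv hW)).integrable_of_hasCompactSupport
    (HasCompactSupport.of_compactSpace _)

/-- **The integral of the even part.** -/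
theorem integral_even (hm : 1 ≤ m) (hW : ContMDiff (𝓡 (2 * m + 1)) 𝓘(ℝ, E) 1 W)
    (ht : ∀ x : sphere (0 : E) 1, ⟪(x : E), W x⟫ = 0) {r : ℝ} (hr : 0 < r) (hn : ∀ x, ‖W x‖ = r) :
    ∫ x : sphere (0 : E) 1, evenPart (covDeriv W x) ∂(volume : Measure E).toSphere
      = (1 + r ^ 2) ^ m * (volume : Measure E).toSphere.real univ := by
  have hfr : finrank ℝ E = 2 * m + 2 := Fact.out (p := finrank ℝ E = 2 * m + 1 + 1)
  have hnt : Nontrivial E := Module.nontrivial_of_finrank_pos (R := ℝ) (by omega)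
  set V : sphere (0 : E) 1 → E := fun x => r⁻¹ • W x with hVdef
  have hVW : W = fun x => r • V x := by
    funext x
    rw [hVdef, smul_smul, mul_inv_cancel₀ hr.ne', one_smul]
  have hVs : ContMDiff (𝓡 (2 * m + 1)) 𝓘(ℝ, E) 1 V :=
    (contDiff_const_smul (𝕜 := ℝ) (n := 1) (F := E) r⁻¹).contMDiff.comp hW
  have hVt : ∀ x : sphere (0 : E) 1, ⟪(x : E), V x⟫ = 0 := fun x => by
    rw [hVdef]; simp only [inner_smul_right, ht, mul_zero]
  have hVu : ∀ x, ‖V x‖ = 1 := fun x => by
    rw [hVdef]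
    simp only [norm_smul, norm_inv, Real.norm_eq_abs, abs_of_pos hr, hn]
    exact inv_mul_cancel₀ hr.ne'
  have hU := Pool.Agent.Helper20.VF.uField_radExt hVs hVt hVu
  set U := Pool.Agent.Helper20.VF.radExt V with hUdef
  have hcov : ∀ x : sphere (0 : E) 1, covDeriv W x = r • Lw U x := by
    intro x
    have := Pool.Agent.Helper20.VF.covDeriv_const_smul V r x
    rw [← hVW] at this
    exact this
  have hev : ∀ x : sphere (0 : E) 1, evenPart (covDeriv W x)
      = ∑ k ∈ Finset.range (finrank ℝ E + 1), ((r ^ k + (-r) ^ k) / 2) * sgE (Lw U x) k := by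
    intro x
    rw [hcov, evenPart, sub_eq_add_neg, ← neg_smul, det_sgE, det_sgE, ← Finset.sum_add_distrib,
      Finset.sum_div]
    exact Finset.sum_congr rfl (fun k _ => by ring)
  have hLc : Continuous (fun u : sphere (0 : E) 1 => Lw U u) := by
    refine (Pool.Agent.Helper20.VF.continuousOn_Lw hU).comp_continuous continuous_subtype_val
      (fun u h => ?_)
    exact Pool.Agent.Helper19.HO.coe_ne_zero u (by simpa using h)
  have hint : ∀ k, Integrable (fun u : sphere (0 : E) 1 => sgE (Lw U u) k)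
      (volume : Measure E).toSphere := fun k =>
    ((Pool.Agent.Helper20.VF.continuous_sgE k).comp hLc).integrable_of_hasCompactSupport
      (HasCompactSupport.of_compactSpace _)
  simp_rw [hev]
  rw [integral_finsetSum _ (fun k _ => (hint k).const_mul _)]
  simp_rw [integral_const_mul]
  rw [hfr, show 2 * m + 2 + 1 = 2 * (m + 1) + 1 by ring, sum_even _ ?_ (m + 1)]
  · have hI : ∀ k, ∫ u : sphere (0 : E) 1, sgE (Lw U u) k ∂(volume : Measure E).toSphere = Ik U k :=
      fun k => rfl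
    simp_rw [hI]
    rw [Finset.sum_range_succ]
    have h0 : Ik U (2 * (m + 1)) = 0 := by
      have h1 := Ik_rec hU (n := 2 * m - 1) (by omega) (k := 2 * m) (by omega)
      rw [hfr] at h1
      push_cast at h1
      have h2 : (2 * (m : ℝ) + 2) * Ik U (2 * m + 2) = 0 := by
        rw [h1]; ring
      have h3 : (2 * (m : ℝ) + 2) ≠ 0 := by positivity
      exact (mul_eq_zero.1 h2).resolve_left h3
    rw [h0, mul_zero, add_zero]
    have h1 : ∀ j ∈ Finset.range (m + 1), (r ^ (2 * j) + (-r) ^ (2 * j)) / 2 * Ik U (2 * j)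
        = (r ^ 2) ^ j * (m.choose j : ℝ) * (volume : Measure E).toSphere.real univ := by
      intro j hj
      rw [Finset.mem_range] at hj
      rw [Ik_even hU hm hfr (by omega : j ≤ m), pow_mul, pow_mul, neg_sq]
      ring
    rw [Finset.sum_congr rfl h1, ← Finset.sum_mul]
    congr 1
    rw [add_comm (1 : ℝ), add_pow]
    exact Finset.sum_congr rfl (fun j _ => by rw [one_pow, mul_one])
  · intro j
    have : r ^ (2 * j + 1) + (-r) ^ (2 * j + 1) = 0 := by
      rw [Odd.neg_pow ⟨j, rfl⟩]; ring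
    rw [this, zero_div, zero_mul]

/-- The abstract principle. -/
theorem principle (hm : 1 ≤ m) (hW : ContMDiff (𝓡 (2 * m + 1)) 𝓘(ℝ, E) 1 W)
    (ht : ∀ x : sphere (0 : E) 1, ⟪(x : E), W x⟫ = 0) {r : ℝ} (hr : 0 < r) (hn : ∀ x, ‖W x‖ = r)
    {F : (E →L[ℝ] E) → ℝ} (hF : Continuous F)
    (h1 : ∀ x : sphere (0 : E) 1, volDens (covDeriv W x) ≤ F (covDeriv W x))
    (h2 : ∀ x : sphere (0 : E) 1, evenPart (covDeriv W x) ≤ F (covDeriv W x))
    (h3 : ∀ x : sphere (0 : E) 1, covDeriv W x (W x) ≠ 0 →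
      evenPart (covDeriv W x) < F (covDeriv W x)) :
    (1 + r ^ 2) ^ m * (volume : Measure E).toSphere.real univ
        ≤ ∫ x : sphere (0 : E) 1, F (covDeriv W x) ∂(volume : Measure E).toSphere ∧
      (∫ x : sphere (0 : E) 1, F (covDeriv W x) ∂(volume : Measure E).toSphere
        = (1 + r ^ 2) ^ m * (volume : Measure E).toSphere.real univ → IsHopf r W) := by
  have hE := integral_even hm hW ht hr hn
  have iF := integrable_of hF hW
  have iE := integrable_of (continuous_evenPart (E := E)) hW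
  have iD := integrable_of (continuous_volDens (E := E)) hW
  refine ⟨by rw [← hE]; exact integral_mono iE iF h2, fun heq => ?_⟩
  -- geodesic
  have hgeo : ∀ x : sphere (0 : E) 1, covDeriv W x (W x) = 0 := by
    by_contra hcon
    push Not at hcon
    obtain ⟨x₀, hx₀⟩ := hcon
    set g : sphere (0 : E) 1 → ℝ := fun x => F (covDeriv W x) - evenPart (covDeriv W x) with hg
    have hgc : Continuous g := (hF.comp (Pool.Agent.Helper19.HO.continuous_covDeriv hW)).sub
      ((continuous_evenPart (E := E)).comp (Pool.Agent.Helper19.HO.continuous_covDeriv hW))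
    have hpos : 0 < ∫ x, g x ∂(volume : Measure E).toSphere := by
      refine hgc.integral_pos_of_hasCompactSupport_nonneg_nonzero
        (HasCompactSupport.of_compactSpace _) (fun x => sub_nonneg.2 (h2 x)) (x := x₀) ?_
      exact (sub_pos.2 (h3 x₀ hx₀)).ne'
    rw [hg, integral_sub iF iE, heq, hE, sub_self] at hpos
    exact lt_irrefl _ hpos
  obtain ⟨a1, a2, -⟩ := Pool.Agent.Helper19.HO.main m hr (E := E)
  have hodd := a2 W hW ht hn hgeo
  obtain ⟨b1, b2⟩ := a1 W hW ht hn hodd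
  refine b2.1 (le_antisymm ?_ b1)
  rw [← heq]
  exact integral_mono iD iF h1

end field

end Pool.Agent.Helper59.DF
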