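import Mathlib

/-!
# Determinants of `1 + AᴴA` and eigenvalues

`∏ (1 + |λ|²) ≤ det (1 + AᴴA)` over the eigenvalues of a complex matrix (from the Schur form), and
two consequences for real matrices.
-/

open Matrix Polynomial
open scoped ComplexOrder

namespace Pool.Agent.Helper59.DF

section complex

variable {ι : Type*} [Fintype ι] [DecidableEq ι]

lemma posDef_one_add (A : Matrix ι ι ℂ) : (1 + Aᴴ * A).PosDef :=
  Matrix.PosDef.one.add_posSemidef (Matrix.posSemidef_conjTranspose_mul_self A)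

lemma norm_det_rankOne {M : Matrix ι ι ℂ} (hM : M.PosDef) (x : ι → ℂ) {c : ℝ} (hc : 0 ≤ c) :
    ‖M.det‖ ≤ ‖(M + (c : ℂ) • vecMulVec (star x) x).det‖ := by
  have hu : IsUnit M.det := (Matrix.isUnit_iff_isUnit_det M).1 hM.isUnit
  have h1 : M + (c : ℂ) • vecMulVec (star x) x
      = M * (1 + vecMulVec (M⁻¹ *ᵥ ((c : ℂ) • star x)) x) := by
    rw [Matrix.mul_add, Matrix.mul_one, mul_vecMulVec, Matrix.mulVec_mulVec,
      Matrix.mul_nonsing_inv M hu, Matrix.one_mulVec, smul_vecMulVec]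
  rw [h1, det_mul, vecMulVec_eq Unit, det_one_add_replicateCol_mul_replicateRow, norm_mul]
  refine le_mul_of_one_le_right (norm_nonneg _) ?_
  have h2 : 0 ≤ star (star x) ⬝ᵥ (M⁻¹ *ᵥ (star x)) :=
    hM.inv.posSemidef.dotProduct_mulVec_nonneg (star x)
  have h4 : (0 : ℝ) ≤ (x ⬝ᵥ (M⁻¹ *ᵥ (star x))).re := by
    rw [star_star] at h2
    exact (Complex.le_def.1 h2).1
  refine le_trans ?_ (Complex.re_le_norm _)
  rw [Matrix.mulVec_smul, dotProduct_smul, smul_eq_mul]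
  simp only [Complex.add_re, Complex.one_re, Complex.mul_re, Complex.ofReal_re, Complex.ofReal_im,
    zero_mul, sub_zero]
  nlinarith [mul_nonneg hc h4]

end complex

/-- the property to be proved by induction. -/
def PP {ι : Type*} [Fintype ι] [DecidableEq ι] (A : Matrix ι ι ℂ) : Prop :=
  (A.charpoly.roots.map (fun z => 1 + ‖z‖ ^ 2)).prod ≤ ‖(1 + Aᴴ * A).det‖

lemma pp_block {n : ℕ} (ih : ∀ A : Matrix (Fin n) (Fin n) ℂ, PP A)
    (T : Matrix (Fin 1 ⊕ Fin n) (Fin 1 ⊕ Fin n) ℂ) (h : T.toBlocks₂₁ = 0) : PP T := by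
  set L := T.toBlocks₁₁ with hL
  set X := T.toBlocks₁₂ with hX
  set A := T.toBlocks₂₂ with hA
  have hT : T = fromBlocks L X 0 A := by
    rw [← h, hL, hX, hA, fromBlocks_toBlocks]
  set l := L 0 0 with hl
  have hchar : T.charpoly.roots = {l} + A.charpoly.roots := by
    rw [hT, charpoly_fromBlocks_zero₂₁, Polynomial.roots_mul
      (mul_ne_zero (charpoly_monic _).ne_zero (charpoly_monic _).ne_zero)]
    congr 1
    have : L.charpoly = Polynomial.X - Polynomial.C l := by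
      rw [Matrix.charpoly, Matrix.charmatrix, det_fin_one]
      simp [hl]
    rw [this, Polynomial.roots_X_sub_C]
  unfold PP
  rw [hchar, Multiset.map_add, Multiset.prod_add, Multiset.map_singleton, Multiset.prod_singleton]
  set x : Fin n → ℂ := fun j => X 0 j with hx
  set c : ℝ := (1 + ‖l‖ ^ 2)⁻¹ with hc
  have hpos : (0 : ℝ) < 1 + ‖l‖ ^ 2 := by positivity
  have hM : 1 + Tᴴ * T = fromBlocks (1 + Lᴴ * L) (Lᴴ * X) (Xᴴ * L) (1 + (Xᴴ * X + Aᴴ * A)) := by
    rw [hT, fromBlocks_conjTranspose, fromBlocks_multiply, ← fromBlocks_one, fromBlocks_add]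
    simp
  have hLL : (1 + Lᴴ * L) = ((1 + ‖l‖ ^ 2 : ℝ) : ℂ) • (1 : Matrix (Fin 1) (Fin 1) ℂ) := by
    ext i j
    fin_cases i; fin_cases j
    simp only [Fin.zero_eta, Matrix.add_apply, one_apply_eq, Matrix.mul_apply, Matrix.smul_apply,
      Finset.univ_unique, Fin.default_eq_zero, conjTranspose_apply, Finset.sum_singleton,
      smul_eq_mul, mul_one]
    rw [← hl]
    push_cast
    rw [Complex.star_def, Complex.conj_mul']
  have hinv : Invertible (1 + Lᴴ * L) := (posDef_one_add L).isUnit.invertible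
  have hdet1 : (1 + Lᴴ * L).det = ((1 + ‖l‖ ^ 2 : ℝ) : ℂ) := by
    rw [hLL, det_fin_one]
    simp
  have hinv2 : (⅟(1 + Lᴴ * L)) = (c : ℂ) • (1 : Matrix (Fin 1) (Fin 1) ℂ) := by
    rw [invOf_eq_nonsing_inv]
    refine Matrix.inv_eq_left_inv ?_
    rw [hLL, Matrix.smul_mul, Matrix.mul_smul, Matrix.mul_one, smul_smul, hc,
      ← Complex.ofReal_mul, inv_mul_cancel₀ hpos.ne', Complex.ofReal_one, one_smul]
  have hdet2 : (1 + (Xᴴ * X + Aᴴ * A)) - Xᴴ * L * ⅟(1 + Lᴴ * L) * (Lᴴ * X)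
      = (1 + Aᴴ * A) + (c : ℂ) • vecMulVec (star x) x := by
    ext i j
    rw [hinv2, Matrix.mul_smul, Matrix.mul_one]
    simp only [Matrix.sub_apply, Matrix.add_apply, Matrix.mul_apply, Finset.univ_unique,
      Fin.default_eq_zero, Finset.sum_singleton, conjTranspose_apply, Matrix.smul_apply,
      vecMulVec_apply, Pi.star_apply, smul_eq_mul, hx]
    rw [← hl]
    have e1 : (c : ℂ) * (1 + l * star l) = 1 := by
      rw [Complex.star_def, Complex.mul_conj', hc]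
      push_cast
      have : ((1 : ℂ) + (‖l‖ : ℂ) ^ 2) ≠ 0 := by
        exact_mod_cast hpos.ne'
      field_simp
    linear_combination (-(star (X 0 i) * X 0 j)) * e1
  rw [hM, det_fromBlocks₁₁, hdet1, hdet2, norm_mul, Complex.norm_real, Real.norm_eq_abs,
    abs_of_pos hpos]
  refine mul_le_mul_of_nonneg_left ((ih A).trans ?_) hpos.le
  exact norm_det_rankOne (posDef_one_add A) x (inv_nonneg.2 hpos.le)

lemma pp_conj {ι : Type*} [Fintype ι] [DecidableEq ι] (A U : Matrix ι ι ℂ) (h1 : Uᴴ * U = 1)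
    (h : PP (Uᴴ * A * U)) : PP A := by
  have h2 : U * Uᴴ = 1 := mul_eq_one_comm.1 h1
  set M : (Matrix ι ι ℂ)ˣ := ⟨Uᴴ, U, h1, h2⟩ with hM
  have h3 : (Uᴴ * A * U).charpoly = A.charpoly := by
    have h5 : (Uᴴ)⁻¹ = U := Matrix.inv_eq_left_inv h2
    have h6 := charpoly_units_conj M A
    have h7 : (M : Matrix ι ι ℂ) = Uᴴ := rfl
    rw [h7, h5] at h6
    exact h6
  have h4 : 1 + (Uᴴ * A * U)ᴴ * (Uᴴ * A * U) = Uᴴ * (1 + Aᴴ * A) * U := by
    rw [conjTranspose_mul, conjTranspose_mul, conjTranspose_conjTranspose, Matrix.mul_add,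
      Matrix.add_mul, Matrix.mul_one, h1]
    congr 1
    calc Uᴴ * (Aᴴ * U) * (Uᴴ * A * U) = Uᴴ * Aᴴ * (U * Uᴴ) * A * U := by
          simp only [Matrix.mul_assoc]
      _ = Uᴴ * (Aᴴ * A) * U := by rw [h2]; simp only [Matrix.mul_assoc, Matrix.mul_one]
  unfold PP at h ⊢
  rw [h3, h4, det_mul, det_mul, mul_right_comm, ← det_mul, h1, det_one, one_mul] at h
  exact h

lemma pp_reindex {ι κ : Type*} [Fintype ι] [DecidableEq ι] [Fintype κ] [DecidableEq κ]
    (e : ι ≃ κ) (A : Matrix ι ι ℂ) (h : PP (reindex e e A)) : PP A := by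
  unfold PP at h ⊢
  rw [charpoly_reindex] at h
  have h1 : (1 : Matrix κ κ ℂ) + (reindex e e A)ᴴ * (reindex e e A)
      = reindex e e (1 + Aᴴ * A) := by
    ext i j
    simp only [Matrix.add_apply, Matrix.mul_apply, Matrix.one_apply, reindex_apply,
      submatrix_apply, conjTranspose_apply, EmbeddingLike.apply_eq_iff_eq]
    rw [← Equiv.sum_comp e]
    simp only [Equiv.symm_apply_apply]
  rw [h1, det_reindex_self] at h
  exact h

lemma pp_sum {n : ℕ} (ih : ∀ A : Matrix (Fin n) (Fin n) ℂ, PP A)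
    (B : Matrix (Fin 1 ⊕ Fin n) (Fin 1 ⊕ Fin n) ℂ) : PP B := by
  -- eigenvector
  obtain ⟨z, hz⟩ : ∃ z : ℂ, B.charpoly.eval z = 0 := by
    refine IsAlgClosed.exists_root B.charpoly ?_
    rw [Matrix.charpoly_degree_eq_dim]
    simp
    exact_mod_cast (by omega : (1 + n ≠ 0))
  rw [Matrix.eval_charpoly] at hz
  obtain ⟨v, hv, hzv⟩ := Matrix.exists_mulVec_eq_zero_iff.2 hz
  have hBv : B *ᵥ v = z • v := by
    rw [Matrix.sub_mulVec, sub_eq_zero] at hzv
    rw [← hzv]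
    simp [Matrix.scalar_apply, ← Matrix.smul_one_eq_diagonal, Matrix.smul_mulVec]
  -- unitary matrix
  set v' : EuclideanSpace ℂ (Fin 1 ⊕ Fin n) := WithLp.toLp 2 v with hv'
  have hv'0 : v' ≠ 0 := by
    intro h
    apply hv
    have := congrArg WithLp.ofLp h
    simpa [hv'] using this
  set u : EuclideanSpace ℂ (Fin 1 ⊕ Fin n) := ((‖v'‖⁻¹ : ℝ) : ℂ) • v' with hu
  have hun : ‖u‖ = 1 := by
    rw [hu, norm_smul, Complex.norm_real, norm_inv, norm_norm,
      inv_mul_cancel₀ (norm_ne_zero_iff.2 hv'0)]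
  obtain ⟨b, hb⟩ : ∃ b : OrthonormalBasis (Fin 1 ⊕ Fin n) ℂ (EuclideanSpace ℂ (Fin 1 ⊕ Fin n)),
      b (Sum.inl 0) = u := by
    have hon : Orthonormal ℂ (({Sum.inl 0} : Set (Fin 1 ⊕ Fin n)).domRestrict
        (fun _ : (Fin 1 ⊕ Fin n) => u)) := by
      constructor
      · rintro ⟨i, hi⟩
        exact hun
      · rintro ⟨i, hi⟩ ⟨j, hj⟩ hij
        rw [Set.mem_singleton_iff] at hi hj
        exact absurd (Subtype.ext (hi.trans hj.symm)) hij
    obtain ⟨b, hb⟩ := hon.exists_orthonormalBasis_extension_of_card_eq (by simp)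
    exact ⟨b, hb _ (Set.mem_singleton _)⟩
  set U : Matrix (Fin 1 ⊕ Fin n) (Fin 1 ⊕ Fin n) ℂ := Matrix.of (fun i j => (b j).ofLp i) with hU
  have hUU : Uᴴ * U = 1 := by
    ext i j
    have h1 : (Uᴴ * U) i j = inner ℂ (b i) (b j) := by
      rw [Matrix.mul_apply, EuclideanSpace.inner_eq_star_dotProduct, dotProduct]
      refine Finset.sum_congr rfl (fun k _ => ?_)
      simp [hU, conjTranspose_apply, mul_comm]
    rw [h1, b.inner_eq_ite, Matrix.one_apply]
  refine pp_conj B U hUU (pp_block ih _ ?_)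
  ext i j
  fin_cases j
  simp only [toBlocks₂₁, Matrix.of_apply, Fin.zero_eta, Matrix.zero_apply]
  have h2 : (B * U) *ᵥ (Pi.single (Sum.inl 0) 1) = z • (U *ᵥ (Pi.single (Sum.inl 0) 1)) := by
    rw [← Matrix.mulVec_mulVec]
    have h3 : U *ᵥ (Pi.single (Sum.inl 0) 1) = ((‖v'‖⁻¹ : ℝ) : ℂ) • v := by
      ext k
      rw [Matrix.mulVec_single_one]
      simp [hU, hb, hu, hv', Matrix.col_apply]
    rw [h3, Matrix.mulVec_smul, hBv, smul_comm]
  have h4 : (Uᴴ * B * U) *ᵥ (Pi.single (Sum.inl 0) 1) = z • (Pi.single (Sum.inl 0) 1) := by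
    rw [Matrix.mul_assoc, ← Matrix.mulVec_mulVec, h2, Matrix.mulVec_smul, Matrix.mulVec_mulVec,
      hUU, Matrix.one_mulVec]
  have h5 := congrFun h4 (Sum.inr i)
  rw [Matrix.mulVec_single_one] at h5
  simpa [Matrix.col_apply] using h5

/-- **Schur**: `∏ (1 + |λ|²) ≤ det (1 + AᴴA)`. -/
theorem pp_fin : ∀ (n : ℕ) (A : Matrix (Fin n) (Fin n) ℂ), PP A := by
  intro n
  induction n with
  | zero =>
    intro A
    unfold PP
    have : A.charpoly = 1 := by
      rw [Matrix.charpoly, det_isEmpty]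
    rw [this]
    simp
  | succ n ih =>
    intro A
    obtain ⟨e⟩ : Nonempty (Fin (n + 1) ≃ Fin 1 ⊕ Fin n) :=
      ⟨((finCongr (Nat.add_comm n 1)).trans finSumFinEquiv.symm)⟩
    exact pp_reindex e A (pp_sum ih _)

end Pool.Agent.Helper59.DF
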