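import Pool.Agent.Helper59.DF.Mat

/-!
# Two determinant inequalities for real matrices
-/

open Matrix Polynomial
open scoped ComplexOrder

namespace Pool.Agent.Helper59.DF

variable {n : ℕ}

/-- the complexification. -/
noncomputable def cx (A : Matrix (Fin n) (Fin n) ℝ) : Matrix (Fin n) (Fin n) ℂ :=
  A.map (algebraMap ℝ ℂ)

lemma charpoly_cx (A : Matrix (Fin n) (Fin n) ℝ) :
    (cx A).charpoly = A.charpoly.map (algebraMap ℝ ℂ) :=
  Matrix.charpoly_map A (algebraMap ℝ ℂ)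

lemma det_cx (A : Matrix (Fin n) (Fin n) ℝ) :
    ‖(1 + (cx A)ᴴ * cx A).det‖ = |(1 + A * Aᵀ).det| := by
  have h1 : (1 + (cx A)ᴴ * cx A) = (1 + Aᵀ * A).map (algebraMap ℝ ℂ) := by
    ext i j
    simp [cx, Matrix.mul_apply, Matrix.one_apply]
    split_ifs <;> simp
  rw [h1, ← RingHom.mapMatrix_apply, ← RingHom.map_det, det_one_add_mul_comm]
  simp

lemma prod_roots_le (A : Matrix (Fin n) (Fin n) ℝ) :
    ((A.charpoly.map (algebraMap ℝ ℂ)).roots.map (fun z => 1 + ‖z‖ ^ 2)).prod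
      ≤ (1 + A * Aᵀ).det := by
  have h1 := pp_fin n (cx A)
  unfold PP at h1
  rw [charpoly_cx, det_cx] at h1
  have h2 : 0 ≤ (1 + A * Aᵀ).det := by
    have h3 : (1 + A * Aᴴ).PosSemidef :=
      Matrix.PosSemidef.one.add (Matrix.posSemidef_self_mul_conjTranspose A)
    rw [conjTranspose_eq_transpose_of_trivial] at h3
    exact h3.det_nonneg
  rwa [abs_of_nonneg h2] at h1

lemma norm_eval_map (p : ℝ[X]) (x : ℝ) :
    ‖(p.map (algebraMap ℝ ℂ)).eval (x : ℂ)‖ = |p.eval x| := by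
  have h : (p.map (algebraMap ℝ ℂ)).eval (x : ℂ) = ((p.eval x : ℝ) : ℂ) := by
    have := Polynomial.eval_map_apply (f := algebraMap ℝ ℂ) (p := p) x
    simpa using this
  rw [h, Complex.norm_real, Real.norm_eq_abs]

/-- `|det (1 + A) det (1 - A)| ≤ det (1 + A Aᵀ)`. -/
theorem abs_det_mul_le (A : Matrix (Fin n) (Fin n) ℝ) :
    |(1 + A).det * (1 - A).det| ≤ (1 + A * Aᵀ).det := by
  refine le_trans ?_ (prod_roots_le A)
  set q := A.charpoly.map (algebraMap ℝ ℂ) with hq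
  have hmon : q.Monic := A.charpoly_monic.map _
  have hspl : q.Splits := IsAlgClosed.splits q
  have h1 : ‖q.eval ((1 : ℝ) : ℂ)‖ = |(1 - A).det| := by
    rw [hq, norm_eval_map, Matrix.eval_charpoly]
    simp
  have h2 : ‖q.eval ((-1 : ℝ) : ℂ)‖ = |(1 + A).det| := by
    rw [hq, norm_eval_map, Matrix.eval_charpoly]
    have : (scalar (Fin n)) (-1 : ℝ) - A = -(1 + A) := by
      ext i j
      by_cases hij : i = j
      · subst hij; simp; ring
      · simp [hij]
    rw [this, det_neg, abs_mul, abs_pow, abs_neg, abs_one, one_pow, one_mul]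
  rw [abs_mul, ← h1, ← h2, ← norm_mul, hspl.eval_eq_prod_roots_of_monic hmon,
    hspl.eval_eq_prod_roots_of_monic hmon, ← Multiset.prod_map_mul]
  have h3 : ∀ s : Multiset ℂ,
      ‖(s.map (fun a => (((-1 : ℝ) : ℂ) - a) * (((1 : ℝ) : ℂ) - a))).prod‖
        ≤ (s.map (fun z => 1 + ‖z‖ ^ 2)).prod := by
    intro s
    induction s using Multiset.induction_on with
    | empty => simp
    | cons a s ih =>
      rw [Multiset.map_cons, Multiset.prod_cons, Multiset.map_cons, Multiset.prod_cons, norm_mul]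
      refine mul_le_mul ?_ ih (norm_nonneg _) (by positivity)
      have e : (((-1 : ℝ) : ℂ) - a) * (((1 : ℝ) : ℂ) - a) = a ^ 2 - 1 := by
        push_cast; ring
      rw [e]
      refine (norm_sub_le _ _).trans ?_
      rw [norm_one, norm_pow, add_comm]
  exact h3 _

/-- a monic quadratic polynomial. -/
lemma quad_roots {f : ℂ[X]} (hf : IsMonicOfDegree f 2) :
    (1 + ‖f.eval 0‖) ^ 2 ≤ (f.roots.map (fun z => 1 + ‖z‖ ^ 2)).prod := by
  have hmon : f.Monic := hf.monic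
  have hspl : f.Splits := IsAlgClosed.splits f
  have hcard : f.roots.card = 2 := by
    rw [← hspl.natDegree_eq_card_roots, hf.natDegree_eq]
  obtain ⟨a, b, hab⟩ := Multiset.card_eq_two.1 hcard
  rw [hspl.eval_eq_prod_roots_of_monic hmon, hab]
  simp only [Multiset.insert_eq_cons, Multiset.map_cons, Multiset.map_singleton,
    Multiset.prod_cons, Multiset.prod_singleton, zero_sub, neg_mul_neg, norm_mul]
  nlinarith [sq_nonneg (‖a‖ - ‖b‖), norm_nonneg a, norm_nonneg b]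

/-- The inequality for `4 × 4` matrices. -/
theorem four_ineq (A : Matrix (Fin 4) (Fin 4) ℝ) :
    ((1 + A).det + (1 - A).det) / 2 - A.trace ^ 2 / 4 ≤ √((1 + A * Aᵀ).det) := by
  have hdeg : IsMonicOfDegree A.charpoly (2 + 2) :=
    ⟨by rw [Matrix.charpoly_natDegree_eq_dim]; simp, A.charpoly_monic⟩
  obtain ⟨f₁, f₂, hf₁, hf₂, hf⟩ := hdeg.eq_isMonicOfDegree_two_mul_isMonicOfDegree
  obtain ⟨t₁, d₁, hf₁'⟩ := isMonicOfDegree_two_iff'.1 hf₁
  obtain ⟨t₂, d₂, hf₂'⟩ := isMonicOfDegree_two_iff'.1 hf₂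
  have h0 := prod_roots_le A
  have hm : ∀ {f : ℝ[X]}, IsMonicOfDegree f 2 → IsMonicOfDegree (f.map (algebraMap ℝ ℂ)) 2 :=
    fun {f} h => ⟨by rw [Polynomial.natDegree_map, h.natDegree_eq], h.monic.map _⟩
  have hr : (A.charpoly.map (algebraMap ℝ ℂ)).roots
      = (f₁.map (algebraMap ℝ ℂ)).roots + (f₂.map (algebraMap ℝ ℂ)).roots := by
    rw [hf, Polynomial.map_mul, Polynomial.roots_mul
      (mul_ne_zero (hm hf₁).ne_zero (hm hf₂).ne_zero)]
  rw [hr, Multiset.map_add, Multiset.prod_add] at h0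
  have e1 := quad_roots (hm hf₁)
  have e2 := quad_roots (hm hf₂)
  have n1 : ‖(f₁.map (algebraMap ℝ ℂ)).eval 0‖ = |d₁| := by
    have := norm_eval_map f₁ 0
    rw [Complex.ofReal_zero] at this
    rw [this, hf₁']
    simp
  have n2 : ‖(f₂.map (algebraMap ℝ ℂ)).eval 0‖ = |d₂| := by
    have := norm_eval_map f₂ 0
    rw [Complex.ofReal_zero] at this
    rw [this, hf₂']
    simp
  rw [n1] at e1
  rw [n2] at e2
  have h1 : ((1 + |d₁|) * (1 + |d₂|)) ^ 2 ≤ (1 + A * Aᵀ).det := by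
    rw [mul_pow]
    refine le_trans (mul_le_mul e1 e2 (by positivity) (le_trans (by positivity) e1)) h0
  have h2 : (1 + |d₁|) * (1 + |d₂|) ≤ √((1 + A * Aᵀ).det) := by
    refine Real.le_sqrt_of_sq_le h1
  -- determinants
  have p1 : (1 - A).det = (1 - t₁ + d₁) * (1 - t₂ + d₂) := by
    have : A.charpoly.eval 1 = (1 - A).det := by
      rw [Matrix.eval_charpoly]; simp
    rw [← this, hf, hf₁', hf₂']
    simp
  have p2 : (1 + A).det = (1 + t₁ + d₁) * (1 + t₂ + d₂) := by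
    have : A.charpoly.eval (-1) = (1 + A).det := by
      rw [Matrix.eval_charpoly]
      have h : (scalar (Fin 4)) (-1 : ℝ) - A = -(1 + A) := by
        ext i j
        by_cases hij : i = j
        · subst hij; simp; ring
        · simp [hij]
      rw [h, det_neg, Fintype.card_fin]
      norm_num
    rw [← this, hf, hf₁', hf₂']
    simp
    try ring
  have p3 : A.trace = t₁ + t₂ := by
    have h3 := Matrix.trace_eq_neg_charpoly_coeff A
    rw [h3, hf, hf₁', hf₂']
    have h4 : ((X ^ 2 - C t₁ * X + C d₁) * (X ^ 2 - C t₂ * X + C d₂) : ℝ[X])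
        = X ^ 4 + C (-(t₁ + t₂)) * X ^ 3 + C (d₁ + d₂ + t₁ * t₂) * X ^ 2
          + C (-(t₁ * d₂ + t₂ * d₁)) * X + C (d₁ * d₂) := by
      simp only [C_add, C_neg, C_mul]
      ring
    rw [h4]
    simp only [Fintype.card_fin, Polynomial.coeff_add, Polynomial.coeff_C_mul,
      Polynomial.coeff_X_pow, Polynomial.coeff_X, Polynomial.coeff_C]
    norm_num
  rw [p1, p2, p3]
  have a1 := le_abs_self d₁
  have a2 := le_abs_self d₂
  have a3 := neg_abs_le d₁
  have a4 := neg_abs_le d₂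
  have h5 : (1 + d₁) * (1 + d₂) ≤ (1 + |d₁|) * (1 + |d₂|) := by
    have b1 : 0 ≤ |d₁| := abs_nonneg _
    have b2 : 0 ≤ |d₂| := abs_nonneg _
    have b3 : d₁ * d₂ ≤ |d₁| * |d₂| := by rw [← abs_mul]; exact le_abs_self _
    nlinarith
  nlinarith [sq_nonneg (t₁ - t₂)]

end Pool.Agent.Helper59.DF
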